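import Pool.Agent.Helper69.RN.St
import Pool.Agent.Helper71.W.CLO

/-!
# RING NOISE, module CJ: copies and LEMMA K, induction on the number of factors
-/

set_option autoImplicit false

namespace Pool.Agent.Helper46.RN

open Pool.Agent.Helper61.GL hiding fl
open Finset Pool.Agent.Helper69.RK Pool.Agent.Helper46.WF Pool.Agent.Helper92.W Pool.Agent.Helper69.RN

/-! ### information between `x` and another variable along the levels -/

section info

variable {Ω α : Type} [Fintype Ω]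

/-- `I(x; W | x_l)` -/
noncomputable def IS (μ : Ω → ℝ) (x : Ω → ℝ) (W : Ω → α) (l : ℕ) : ℝ :=
  CH μ x (fun ω => fl l (x ω)) - CH μ x (fun ω => (W ω, fl l (x ω)))

theorem fl_down {l l' : ℕ} (h : l ≤ l') {y y' : ℝ} (e : fl l' y = fl l' y') : fl l y = fl l y' :=
  Pool.Agent.Helper61.GL.fl_ref h e

theorem IS_nonneg (μ : Ω → ℝ) (hμ : ∀ ω, 0 ≤ μ ω) (x : Ω → ℝ) (W : Ω → α) (l : ℕ) :
    0 ≤ IS μ x W l := by
  unfold IS
  have := ch_cond μ hμ x (fun ω => fl l (x ω)) (fun ω => (W ω, fl l (x ω)))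
    (fun ω ω' _ _ h => (Prod.ext_iff.1 h).2)
  linarith

theorem IS_le (μ : Ω → ℝ) (hμ : ∀ ω, 0 ≤ μ ω) (x : Ω → ℝ) (W : Ω → α) (l : ℕ) :
    IS μ x W l ≤ Hh μ x - CH μ x W := by
  unfold IS Hh
  have h1 := ch_chain μ (fun ω => fl l (x ω)) x (fun _ => ())
  have h2 := ch_chain μ (fun ω => fl l (x ω)) x W
  have h3 : CH μ (fun ω => (fl l (x ω), x ω)) (fun _ => ()) = CH μ x (fun _ => ()) := by
    apply ch_congr_left
    intro ω ω' _ _ _
    rw [Prod.mk.injEq]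
    exact ⟨fun e => e.2, fun e => ⟨by rw [e], e⟩⟩
  have h4 : CH μ (fun ω => (fl l (x ω), x ω)) W = CH μ x W := by
    apply ch_congr_left
    intro ω ω' _ _ _
    rw [Prod.mk.injEq]
    exact ⟨fun e => e.2, fun e => ⟨by rw [e], e⟩⟩
  have h5 : CH μ x (fun ω => (fl l (x ω), ())) = CH μ x (fun ω => fl l (x ω)) := by
    apply ch_congr_right
    intro ω ω' _ _
    rw [Prod.mk.injEq]
    exact ⟨fun e => e.1, fun e => ⟨e, rfl⟩⟩
  have h6 : CH μ x (fun ω => (fl l (x ω), W ω)) = CH μ x (fun ω => (W ω, fl l (x ω))) := by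
    apply ch_congr_right
    intro ω ω' _ _
    rw [Prod.mk.injEq, Prod.mk.injEq]
    exact and_comm
  have h7 : CH μ (fun ω => fl l (x ω)) W ≤ CH μ (fun ω => fl l (x ω)) (fun _ => ()) :=
    ch_cond μ hμ _ _ _ (fun _ _ _ _ _ => rfl)
  linarith

theorem IS_diff (μ : Ω → ℝ) (x : Ω → ℝ) (W : Ω → α) (l m : ℕ) :
    CH μ (fun ω => fl (l + m) (x ω)) (fun ω => fl l (x ω)) -
      CH μ (fun ω => fl (l + m) (x ω)) (fun ω => (W ω, fl l (x ω))) =
        IS μ x W l - IS μ x W (l + m) := by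
  unfold IS
  have h1 := ch_chain μ (fun ω => fl (l + m) (x ω)) x (fun ω => fl l (x ω))
  have h2 := ch_chain μ (fun ω => fl (l + m) (x ω)) x (fun ω => (W ω, fl l (x ω)))
  have h3 : CH μ (fun ω => (fl (l + m) (x ω), x ω)) (fun ω => fl l (x ω))
      = CH μ x (fun ω => fl l (x ω)) := by
    apply ch_congr_left
    intro ω ω' _ _ _
    rw [Prod.mk.injEq]
    exact ⟨fun e => e.2, fun e => ⟨by rw [e], e⟩⟩
  have h4 : CH μ (fun ω => (fl (l + m) (x ω), x ω)) (fun ω => (W ω, fl l (x ω)))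
      = CH μ x (fun ω => (W ω, fl l (x ω))) := by
    apply ch_congr_left
    intro ω ω' _ _ _
    rw [Prod.mk.injEq]
    exact ⟨fun e => e.2, fun e => ⟨by rw [e], e⟩⟩
  have h5 : CH μ x (fun ω => (fl (l + m) (x ω), fl l (x ω)))
      = CH μ x (fun ω => fl (l + m) (x ω)) := by
    apply ch_congr_right
    intro ω ω' _ _
    rw [Prod.mk.injEq]
    exact ⟨fun e => e.1, fun e => ⟨e, fl_down (Nat.le_add_right l m) e⟩⟩
  have h6 : CH μ x (fun ω => (fl (l + m) (x ω), (W ω, fl l (x ω))))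
      = CH μ x (fun ω => (W ω, fl (l + m) (x ω))) := by
    apply ch_congr_right
    intro ω ω' _ _
    rw [Prod.mk.injEq, Prod.mk.injEq, Prod.mk.injEq]
    exact ⟨fun e => ⟨e.2.1, e.1⟩,
      fun e => ⟨e.2, e.1, fl_down (Nat.le_add_right l m) e.2⟩⟩
  linarith

end info

/-! ### one copied factor: the comparison -/

section one

variable {Ω β γ : Type} [Fintype Ω]

/-- the variables of the comparison -/
noncomputable def dD (x : Ω → ℝ) (k : ℕ) (i : Fin 2) (w : Ω × Ω) : ℤ :=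
  if i = 0 then fl k (x w.2) else fl k (x w.1)

theorem tc_le (μ : Ω → ℝ) (hμ : ∀ ω, 0 ≤ μ ω) (G : Ω → γ) (x : Ω → ℝ) (l k : ℕ)
    (hG : ∀ ω ω', G ω = G ω' → fl l (x ω) = fl l (x ω')) (W : Ω → β) (E : Ω → Prop)
    (hE : ∀ ω ω', μ ω ≠ 0 → μ ω' ≠ 0 → W ω = W ω' → fl l (x ω) = fl l (x ω') → (E ω ↔ E ω')) :
    TC (cop2 μ G) (dD x k) (fun w => ((E w.2, fl l (x w.2)) : Prop × ℤ)) (fun _ g => g.2) ≤
      (CH μ (fun ω => fl k (x ω)) (fun ω => fl l (x ω)) -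
        CH μ (fun ω => fl k (x ω)) (fun ω => (W ω, fl l (x ω)))) +
      (CH μ (fun ω => fl k (x ω)) (fun ω => fl l (x ω)) - CH μ (fun ω => fl k (x ω)) G) := by
  set μ' := cop2 μ G with hμ'
  have nn : ∀ w, 0 ≤ μ' w := cp_nn μ hμ G
  unfold TC
  rw [Fin.sum_univ_two]
  have a0 : CH μ' (dD x k 0) (hg (fun _ (g : Prop × ℤ) => g.2)
      (fun w => (E w.2, fl l (x w.2))) (0 : Fin 2)) =
      CH μ (fun ω => fl k (x ω)) (fun ω => fl l (x ω)) :=
    cp_CH2 μ hμ G (fun ω => fl k (x ω)) (fun ω => fl l (x ω))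
  have a1 : CH μ' (dD x k 1) (hg (fun _ (g : Prop × ℤ) => g.2)
      (fun w => (E w.2, fl l (x w.2))) (1 : Fin 2)) =
      CH μ (fun ω => fl k (x ω)) (fun ω => fl l (x ω)) := by
    rw [← cp_CH1 μ hμ G (fun ω => fl k (x ω)) (fun ω => fl l (x ω))]
    have b1 : dD x k 1 = fun w => fl k (x w.1) := by
      funext w
      unfold dD
      rw [if_neg (by decide)]
    rw [b1]
    apply ch_congr_right
    intro w w' h h'
    have c1 := hG _ _ (cp_supp μ hμ G h).1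
    have c2 := hG _ _ (cp_supp μ hμ G h').1
    change fl l (x w.2) = fl l (x w'.2) ↔ _
    rw [c1, c2]
  have a2 : CH μ (fun ω => fl k (x ω)) (fun ω => (W ω, fl l (x ω))) +
      CH μ (fun ω => fl k (x ω)) G ≤
      CH μ' (fun w => fun i => dD x k i w) (fun w => ((E w.2, fl l (x w.2)) : Prop × ℤ)) := by
    have b1 : CH μ' (fun w => fun i => dD x k i w) (fun w => (W w.2, fl l (x w.2))) ≤
        CH μ' (fun w => fun i => dD x k i w) (fun w => ((E w.2, fl l (x w.2)) : Prop × ℤ)) := by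
      apply ch_cond μ' nn
      intro w w' h h' e
      simp only [Prod.mk.injEq] at e
      simp only [Prod.mk.injEq]
      exact ⟨propext (hE _ _ (cp_supp μ hμ G h).2.2 (cp_supp μ hμ G h').2.2 e.1 e.2), e.2⟩
    have b2 : CH μ' (fun w => fun i => dD x k i w) (fun w => (W w.2, fl l (x w.2))) =
        CH μ' (fun w => (fl k (x w.2), fl k (x w.1))) (fun w => (W w.2, fl l (x w.2))) := by
      apply ch_congr_left
      intro w w' _ _ _
      rw [Prod.mk.injEq]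
      constructor
      · intro e
        have e0 := congrFun e 0
        have e1 := congrFun e 1
        unfold dD at e0 e1
        rw [if_pos rfl, if_pos rfl] at e0
        rw [if_neg (by decide), if_neg (by decide)] at e1
        exact ⟨e0, e1⟩
      · intro e
        funext i
        unfold dD
        rw [e.1, e.2]
    have b3 := ch_chain μ' (fun w => fl k (x w.2)) (fun w => fl k (x w.1))
      (fun w => (W w.2, fl l (x w.2)))
    have b4 : CH μ' (fun w => fl k (x w.2)) (fun w => (W w.2, fl l (x w.2)))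
        = CH μ (fun ω => fl k (x ω)) (fun ω => (W ω, fl l (x ω))) :=
      cp_CH2 μ hμ G (fun ω => fl k (x ω)) (fun ω => (W ω, fl l (x ω)))
    have b5 := cp_ind μ hμ G (fun ω => fl k (x ω)) (fun ω => ω)
    have b6 : CH μ' (fun w => fl k (x w.1)) (fun w => (w.2, G w.1)) ≤
        CH μ' (fun w => fl k (x w.1)) (fun w => (fl k (x w.2), (W w.2, fl l (x w.2)))) := by
      apply ch_cond μ' nn
      intro w w' _ _ e
      have e1 : w.2 = w'.2 := (Prod.ext_iff.1 e).1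
      rw [e1]
    linarith
  rw [a0, a1]
  linarith

open Classical in
theorem one_step (μ : Ω → ℝ) (hμ : ∀ ω, 0 ≤ μ ω) (hm : mass μ = 1) (G : Ω → γ) (x : Ω → ℝ)
    (l ρ : ℕ) (hG : ∀ ω ω', G ω = G ω' → fl l (x ω) = fl l (x ω')) (W : Ω → β) (E : Ω → Prop)
    (hE : ∀ ω ω', μ ω ≠ 0 → μ ω' ≠ 0 → W ω = W ω' → fl l (x ω) = fl l (x ω') → (E ω ↔ E ω'))
    {a : ℝ} (hNA : ∀ ω, μ ω ≠ 0 → E ω → NA μ x ρ a l ω) :
    a * Pw μ E ≤ (8 / 5) * (Pw (cop2 μ G) (fun w => E w.2 ∧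
        1 ≤ |x w.2 - x w.1| * 2 ^ (l + (ρ + 2))) +
      ((CH μ (fun ω => fl (l + (ρ + 2)) (x ω)) (fun ω => fl l (x ω)) -
        CH μ (fun ω => fl (l + (ρ + 2)) (x ω)) (fun ω => (W ω, fl l (x ω)))) +
      (CH μ (fun ω => fl (l + (ρ + 2)) (x ω)) (fun ω => fl l (x ω)) -
        CH μ (fun ω => fl (l + (ρ + 2)) (x ω)) G))) := by
  obtain ⟨k, hk⟩ : ∃ k, k = l + (ρ + 2) := ⟨_, rfl⟩
  rw [← hk]
  have hp : (0 : ℝ) < 2 ^ k := by positivity
  set μ' := cop2 μ G with hμ'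
  have nn : ∀ w, 0 ≤ μ' w := cp_nn μ hμ G
  have hm' : ∑ w, μ' w = 1 := (cp_mass μ hμ G).trans hm
  set Ψ : Prop × ℤ → (Fin 2 → ℤ) → ℝ := fun g d =>
    if g.1 ∧ 2 ≤ |d 0 - d 1| then 1 else 0 with hΨ
  set G1 : Ω × Ω → Prop × ℤ := fun w => (E w.2, fl l (x w.2)) with hG1
  have h01 : ∀ w, μ' w ≠ 0 → ∀ d, 0 ≤ Ψ (G1 w) d ∧ Ψ (G1 w) d ≤ 1 := by
    intro w _ d
    simp only [hΨ]
    split_ifs
    · exact ⟨zero_le_one, le_rfl⟩
    · exact ⟨le_rfl, zero_le_one⟩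
  have hgib := clo_gibbs μ' nn hm' (dD x k) G1 (fun _ g => g.2) Ψ h01
  have hTC := tc_le μ hμ G x l k hG W E hE
  -- the product law
  have hQ : a * Pw μ E ≤ ∑ w, μ' w * EQ μ' (hg (fun _ g => g.2) G1) w
        (fun b => Ψ (G1 w) (fun i => dD x k i (b i))) := by
    have e1 : a * Pw μ E = ∑ w, μ' w * (if E w.2 then a else 0) := by
      rw [cp_sum2 μ hμ G (fun ω => if E ω then a else 0)]
      unfold Pw
      rw [Finset.mul_sum]
      refine Finset.sum_congr rfl fun ω _ => ?_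
      by_cases h : E ω
      · rw [if_pos h, if_pos h, mul_comm]
      · rw [if_neg h, if_neg h, mul_zero, mul_zero]
    rw [e1]
    refine Finset.sum_le_sum fun w _ => ?_
    by_cases h0 : μ' w = 0
    · rw [h0, zero_mul, zero_mul]
    refine mul_le_mul_of_nonneg_left ?_ (nn w)
    have hw2 := (cp_supp μ hμ G h0).2.2
    have h1 := clo_EQ μ hμ G (fun ω => fl l (x ω)) hG
      (hg (fun (_ : Fin 2) (g : Prop × ℤ) => g.2) G1) (fun _ _ => rfl) h0
      (fun ω1 ω2 => if E w.2 ∧ 2 ≤ |fl k (x ω1) - fl k (x ω2)| then 1 else 0)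
    have h2 : EQ μ' (hg (fun (_ : Fin 2) (g : Prop × ℤ) => g.2) G1) w
        (fun b => Ψ (G1 w) (fun i => dD x k i (b i))) =
        EQ μ' (hg (fun (_ : Fin 2) (g : Prop × ℤ) => g.2) G1) w
          (fun b : Fin 2 → Ω × Ω => if E w.2 ∧ 2 ≤ |fl k (x (b 0).2) - fl k (x (b 1).1)|
            then 1 else 0) := rfl
    rw [h2]
    refine le_trans ?_ (le_of_eq h1.symm)
    by_cases hEw : E w.2
    · rw [if_pos hEw]
      have h3 := cw_sum μ (fun ω => fl l (x ω)) hμ w.2 hw2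
      have h4 : a = ∑ ω1, cw μ (fun ω => fl l (x ω)) w.2 ω1 * a := by
        rw [← Finset.sum_mul, h3, one_mul]
      conv_lhs => rw [h4]
      refine Finset.sum_le_sum fun ω1 _ => ?_
      refine mul_le_mul_of_nonneg_left ?_ (cw_nonneg μ _ hμ _ _)
      refine (hNA w.2 hw2 hEw (x ω1)).trans ?_
      unfold Pw
      refine Finset.sum_le_sum fun ω2 _ => ?_
      by_cases h5 : (1 / 2 : ℝ) ^ (l + ρ) < |x ω2 - x ω1|
      · rw [if_pos h5, if_pos, mul_one]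
        refine ⟨hEw, ?_⟩
        have h6 : (1 : ℝ) < |((fl k (x ω1) - fl k (x ω2) : ℤ) : ℝ)| := by
          have g1 := floor_near ((2 : ℝ) ^ k * x ω1) ((2 : ℝ) ^ k * x ω2)
          have i1 := Int.floor_le ((2 : ℝ) ^ k * x ω1)
          have i2 := (Int.lt_floor_add_one ((2 : ℝ) ^ k * x ω1)).le
          have i3 := Int.floor_le ((2 : ℝ) ^ k * x ω2)
          have i4 := (Int.lt_floor_add_one ((2 : ℝ) ^ k * x ω2)).le
          have h7 : (4 : ℝ) < |(2 : ℝ) ^ k * x ω2 - 2 ^ k * x ω1| := by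
            rw [← mul_sub, abs_mul, abs_of_pos hp]
            have h8 : (4 : ℝ) = 2 ^ k * (1 / 2) ^ (l + ρ) := by
              rw [hk, show l + (ρ + 2) = (l + ρ) + 2 by ring, pow_add, mul_comm ((2 : ℝ) ^ (l + ρ)),
                mul_assoc, ← mul_pow]
              norm_num
            rw [h8]
            exact mul_lt_mul_of_pos_left h5 hp
          have h9 : |(2 : ℝ) ^ k * x ω2 - 2 ^ k * x ω1| ≤
              |((fl k (x ω1) - fl k (x ω2) : ℤ) : ℝ)| + 2 := by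
            unfold fl
            push_cast
            rw [abs_le]
            have j1 := le_abs_self ((⌊(2 : ℝ) ^ k * x ω1⌋ : ℝ) - ⌊(2 : ℝ) ^ k * x ω2⌋)
            have j2 := neg_abs_le ((⌊(2 : ℝ) ^ k * x ω1⌋ : ℝ) - ⌊(2 : ℝ) ^ k * x ω2⌋)
            constructor <;> linarith
          linarith
        have h7 : (1 : ℤ) < |fl k (x ω1) - fl k (x ω2)| := by
          have : ((1 : ℤ) : ℝ) < ((|fl k (x ω1) - fl k (x ω2)| : ℤ) : ℝ) := by
            rw [Int.cast_abs]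
            simpa using h6
          exact_mod_cast this
        omega
      · rw [if_neg h5]
        exact mul_nonneg (cw_nonneg μ _ hμ _ _) (by split_ifs <;> norm_num)
    · rw [if_neg hEw]
      refine Finset.sum_nonneg fun ω1 _ => mul_nonneg (cw_nonneg μ _ hμ _ _) ?_
      refine Finset.sum_nonneg fun ω2 _ => mul_nonneg (cw_nonneg μ _ hμ _ _) ?_
      split_ifs <;> norm_num
  -- the joint law
  have hP : ∑ w, μ' w * Ψ (G1 w) (fun i => dD x k i w) ≤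
      Pw μ' (fun w => E w.2 ∧ 1 ≤ |x w.2 - x w.1| * 2 ^ k) := by
    unfold Pw
    refine Finset.sum_le_sum fun w _ => ?_
    have e1 : Ψ (G1 w) (fun i => dD x k i w) =
        if E w.2 ∧ 2 ≤ |fl k (x w.2) - fl k (x w.1)| then 1 else 0 := rfl
    rw [e1]
    by_cases h1 : E w.2 ∧ 2 ≤ |fl k (x w.2) - fl k (x w.1)|
    · rw [if_pos h1, if_pos, mul_one]
      refine ⟨h1.1, ?_⟩
      have h2 : (2 : ℝ) ≤ |((fl k (x w.2) - fl k (x w.1) : ℤ) : ℝ)| := by
        have : ((2 : ℤ) : ℝ) ≤ ((|fl k (x w.2) - fl k (x w.1)| : ℤ) : ℝ) := by exact_mod_cast h1.2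
        rw [Int.cast_abs] at this
        simpa using this
      have g1 := floor_near ((2 : ℝ) ^ k * x w.2) ((2 : ℝ) ^ k * x w.1)
      have e2 : |x w.2 - x w.1| * 2 ^ k = |(2 : ℝ) ^ k * x w.2 - 2 ^ k * x w.1| := by
        rw [← mul_sub, abs_mul, abs_of_pos hp, mul_comm]
      rw [e2]
      unfold fl at h2
      push_cast at h2
      linarith
    · rw [if_neg h1, mul_zero]
      split_ifs
      · exact nn w
      · exact le_rfl
  refine (hQ.trans hgib).trans (mul_le_mul_of_nonneg_left (add_le_add hP hTC) (by norm_num))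

end one

/-! ### the copy space -/

section copy

variable {Ω α υ : Type} [Fintype Ω]

/-- key of the copies -/
noncomputable def kG (n l : ℕ) (z x : Ω → ℝ) (U : Ω → υ) (q : υ → ℝ) (ω : Ω) : (ℤ × υ) × ℤ :=
  ((fl n (z ω + x ω * q (U ω)), U ω), fl l (x ω))

omit [Fintype Ω] in
theorem kG_eq {n l : ℕ} {z x : Ω → ℝ} {U : Ω → υ} {q : υ → ℝ} {ω ω' : Ω}
    (h : kG n l z x U q ω = kG n l z x U q ω') :
    fl n (z ω + x ω * q (U ω)) = fl n (z ω' + x ω' * q (U ω')) ∧ U ω = U ω' ∧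
      fl l (x ω) = fl l (x ω') := by
  unfold kG at h
  rw [Prod.mk.injEq, Prod.mk.injEq] at h
  exact ⟨h.1.1, h.1.2, h.2⟩

/-- the absorbing end is blind for `x` -/
theorem info_S (n : ℕ) (μ : Ω → ℝ) (hμ : ∀ ω, 0 ≤ μ ω) (hm : mass μ = 1) (z x : Ω → ℝ) (U : Ω → υ)
    (q : υ → ℝ) {t : ℝ}
    (hx : Hh μ x ≤ CH μ x (fun ω => (fl n (z ω), U ω)) + t)
    (hz : Hh μ (fun ω => fl n (z ω)) ≤ CH μ (fun ω => fl n (z ω)) (fun ω => (x ω, U ω)) + t)
    (hS : CH μ (fun ω => fl n (z ω + x ω * q (U ω))) U ≤ Hh μ (fun ω => fl n (z ω)) + t) :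
    Hh μ x - CH μ x (fun ω => (fl n (z ω + x ω * q (U ω)), U ω)) ≤ 3 * t + 3 := by
  have h1 : CH μ x (fun ω => (fl n (z ω), U ω)) ≤ CH μ x U :=
    ch_cond μ hμ _ _ _ fun ω ω' _ _ e => (Prod.ext_iff.1 e).2
  have h2 := ch_symm μ x (fun ω => fl n (z ω + x ω * q (U ω))) U
  have h3 := ch_tri μ hμ (fun ω => fl n (z ω)) (fun ω => fl n (z ω + x ω * q (U ω)))
    (fun ω => (x ω, U ω))
  have h4 : CH μ (fun ω => fl n (z ω)) (fun ω => (fl n (z ω + x ω * q (U ω)), (x ω, U ω))) ≤ 3 := by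
    have h5 := ch_int3 μ hμ (fun ω => fl n (z ω)) (fun ω => (fl n (z ω + x ω * q (U ω)), (x ω, U ω)))
      (fun ω ω' _ _ e => by
        simp only [Prod.mk.injEq] at e
        obtain ⟨e1, e2, e3⟩ := e
        have c1 := floor_eq_near e1
        have c2 : (2 : ℝ) ^ n * (z ω + x ω * q (U ω)) - 2 ^ n * (z ω' + x ω' * q (U ω')) =
            2 ^ n * z ω - 2 ^ n * z ω' := by
          rw [e2, e3]
          ring
        rw [c2] at c1
        have c3 := floor_near ((2 : ℝ) ^ n * z ω) ((2 : ℝ) ^ n * z ω')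
        unfold fl
        linarith)
    rw [hm] at h5
    linarith
  linarith

theorem kG_CH (n l : ℕ) (μ : Ω → ℝ) (z x : Ω → ℝ) (U : Ω → υ) (q : υ → ℝ) (f : Ω → α) :
    CH μ f (kG n l z x U q) =
      CH μ f (fun ω => ((fl n (z ω + x ω * q (U ω)), U ω), fl l (x ω))) := rfl

/-- the joint law on the copy space -/
theorem cp_joint (n l : ℕ) (μ : Ω → ℝ) (hμ : ∀ ω, 0 ≤ μ ω) (z x : Ω → ℝ) (U : Ω → υ) (q : υ → ℝ)
    (V : Ω → α) :
    Hh μ V + CH μ x (kG n l z x U q) ≤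
      Hh (cop2 μ (kG n l z x U q)) (fun w => (V w.2, x w.1)) := by
  set G := kG n l z x U q with hG
  set μ' := cop2 μ G with hμ'
  have nn : ∀ w, 0 ≤ μ' w := cp_nn μ hμ G
  unfold Hh
  rw [ch_chain μ' (fun w => V w.2) (fun w => x w.1) (fun _ => ())]
  have b2 : CH μ' (fun w => V w.2) (fun _ => ()) = CH μ V (fun _ => ()) :=
    cp_CH2 μ hμ G V (fun _ => ())
  have b3 := cp_ind μ hμ G x (fun ω => ω)
  have b4 : CH μ' (fun w => x w.1) (fun w => (w.2, G w.1)) ≤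
      CH μ' (fun w => x w.1) (fun w => (V w.2, ())) := by
    apply ch_cond μ' nn
    intro w w' _ _ e
    have e1 : w.2 = w'.2 := (Prod.ext_iff.1 e).1
    rw [e1]
  rw [b2]
  linarith

/-- the new label -/
theorem cp_label (n l : ℕ) (μ : Ω → ℝ) (hμ : ∀ ω, 0 ≤ μ ω) (z x : Ω → ℝ) (U : Ω → υ) (q : υ → ℝ)
    (ζ : Ω → α) :
    Hh (cop2 μ (kG n l z x U q)) (fun w => (ζ w.2, x w.2, x w.1)) ≤
      Hh μ ζ + Hh μ x + CH μ x (fun ω => fl l (x ω)) := by
  set G := kG n l z x U q with hG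
  set μ' := cop2 μ G with hμ'
  have nn : ∀ w, 0 ≤ μ' w := cp_nn μ hμ G
  have b0 : Hh μ' (fun w => (ζ w.2, x w.2, x w.1)) =
      CH μ' (fun w => ((ζ w.2, x w.2), x w.1)) (fun _ => ()) := by
    apply ch_congr_left
    intro w w' _ _ _
    simp only [Prod.mk.injEq]
    tauto
  have b1 := ch_chain μ' (fun w => (ζ w.2, x w.2)) (fun w => x w.1) (fun _ => ())
  have b2 : CH μ' (fun w => (ζ w.2, x w.2)) (fun _ => ()) = CH μ (fun ω => (ζ ω, x ω)) (fun _ => ()) :=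
    cp_CH2 μ hμ G (fun ω => (ζ ω, x ω)) (fun _ => ())
  have b3 : CH μ' (fun w => x w.1) (fun w => ((ζ w.2, x w.2), ())) ≤
      CH μ' (fun w => x w.1) (fun w => fl l (x w.1)) := by
    apply ch_cond μ' nn
    intro w w' h h' e
    simp only [Prod.mk.injEq] at e
    have c1 := (kG_eq (cp_supp μ hμ G h).1).2.2
    have c2 := (kG_eq (cp_supp μ hμ G h').1).2.2
    rw [c1, c2, e.1.2]
  have b4 : CH μ' (fun w => x w.1) (fun w => fl l (x w.1)) = CH μ x (fun ω => fl l (x ω)) :=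
    cp_CH1 μ hμ G x (fun ω => fl l (x ω))
  have b5 := ch_chain μ ζ x (fun _ => ())
  have b6 : CH μ x (fun ω => (ζ ω, ())) ≤ CH μ x (fun _ => ()) :=
    ch_cond μ hμ _ _ _ (fun _ _ _ _ _ => rfl)
  unfold Hh at b0 ⊢
  linarith

/-- absorption in the copy space -/
theorem cp_absorb (n l : ℕ) (μ : Ω → ℝ) (hμ : ∀ ω, 0 ≤ μ ω) (hm : mass μ = 1) (z x : Ω → ℝ)
    (U : Ω → υ) (q : υ → ℝ) (ζ' : Ω × Ω → α) :
    CH (cop2 μ (kG n l z x U q)) (fun w => fl n (z w.2 + (x w.2 - x w.1) * q (U w.2))) ζ' ≤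
      Hh μ (fun ω => fl n (z ω)) + 3 := by
  set G := kG n l z x U q with hG
  set μ' := cop2 μ G with hμ'
  have nn : ∀ w, 0 ≤ μ' w := cp_nn μ hμ G
  have h1 : CH μ' (fun w => fl n (z w.2 + (x w.2 - x w.1) * q (U w.2))) ζ' ≤
      CH μ' (fun w => fl n (z w.2 + (x w.2 - x w.1) * q (U w.2))) (fun _ => ()) :=
    ch_cond μ' nn _ _ _ (fun _ _ _ _ _ => rfl)
  have h2 := ch_tri μ' nn (fun w => fl n (z w.2 + (x w.2 - x w.1) * q (U w.2)))
    (fun w => fl n (z w.1)) (fun _ => ())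
  have h3 : CH μ' (fun w => fl n (z w.1)) (fun _ => ()) = Hh μ (fun ω => fl n (z ω)) :=
    cp_CH1 μ hμ G (fun ω => fl n (z ω)) (fun _ => ())
  have key : ∀ w, μ' w ≠ 0 →
      |(2 : ℝ) ^ n * (z w.2 + (x w.2 - x w.1) * q (U w.2)) - 2 ^ n * z w.1| ≤ 1 := by
    intro w h
    obtain ⟨c1, c2, -⟩ := kG_eq (cp_supp μ hμ G h).1
    have c3 := floor_eq_near c1
    have e1 : (2 : ℝ) ^ n * (z w.2 + (x w.2 - x w.1) * q (U w.2)) - 2 ^ n * z w.1 =
        -(2 ^ n * (z w.1 + x w.1 * q (U w.1)) - 2 ^ n * (z w.2 + x w.2 * q (U w.2))) := by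
      rw [c2]
      ring
    rw [e1, abs_neg]
    exact c3
  have h4 := ch_int3 μ' nn (fun w => fl n (z w.2 + (x w.2 - x w.1) * q (U w.2)))
    (fun w => (fl n (z w.1), ())) (fun w w' h h' e => by
      have e1 : fl n (z w.1) = fl n (z w'.1) := (Prod.ext_iff.1 e).1
      have c1 := floor_eq_near e1
      have c2 := key w h
      have c3 := key w' h'
      have c4 := floor_near ((2 : ℝ) ^ n * (z w.2 + (x w.2 - x w.1) * q (U w.2)))
        ((2 : ℝ) ^ n * (z w'.2 + (x w'.2 - x w'.1) * q (U w'.2)))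
      have c5 : (2 : ℝ) ^ n * (z w.2 + (x w.2 - x w.1) * q (U w.2)) -
          (2 : ℝ) ^ n * (z w'.2 + (x w'.2 - x w'.1) * q (U w'.2)) =
          ((2 : ℝ) ^ n * (z w.2 + (x w.2 - x w.1) * q (U w.2)) - 2 ^ n * z w.1)
          + ((2 : ℝ) ^ n * z w.1 - 2 ^ n * z w'.1) -
          ((2 : ℝ) ^ n * (z w'.2 + (x w'.2 - x w'.1) * q (U w'.2)) - 2 ^ n * z w'.1) := by
        ring
      have t1 := abs_sub (((2 : ℝ) ^ n * (z w.2 + (x w.2 - x w.1) * q (U w.2))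
        - 2 ^ n * z w.1) + ((2 : ℝ) ^ n * z w.1 - 2 ^ n * z w'.1))
        ((2 : ℝ) ^ n * (z w'.2 + (x w'.2 - x w'.1) * q (U w'.2)) - 2 ^ n * z w'.1)
      have t2 := abs_add_le ((2 : ℝ) ^ n * (z w.2 + (x w.2 - x w.1) * q (U w.2))
        - 2 ^ n * z w.1) ((2 : ℝ) ^ n * z w.1 - 2 ^ n * z w'.1)
      rw [← c5] at t1
      unfold fl
      linarith)
  have h5 : mass μ' = 1 := by rw [hμ', cp_mass μ hμ G, hm]
  rw [h5] at h4
  linarith

/-- non-atomic levels in the copy space -/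
theorem cp_NA (μ : Ω → ℝ) (hμ : ∀ ω, 0 ≤ μ ω) {γ : Type} (G : Ω → γ) (v : Ω → ℝ) (ρ : ℕ) (a : ℝ)
    (l : ℕ) (w : Ω × Ω) : NA (cop2 μ G) (fun w => v w.2) ρ a l w ↔ NA μ v ρ a l w.2 := by
  unfold NA
  refine forall_congr' fun x => ?_
  rw [clo_Pw μ hμ G (fun ω => fl l (v ω)) w (fun ω' => (1 / 2 : ℝ) ^ (l + ρ) < |v ω' - x|)]

theorem NA_congr (μ : Ω → ℝ) (v : Ω → ℝ) (ρ : ℕ) (a : ℝ) (l : ℕ) {ω ω' : Ω}
    (h : fl l (v ω) = fl l (v ω')) : NA μ v ρ a l ω ↔ NA μ v ρ a l ω' := by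
  have h1 : cw μ (fun ω' => fl l (v ω')) ω = cw μ (fun ω' => fl l (v ω')) ω' := by
    funext ω''
    exact cw_congr μ _ h ω''
  unfold NA
  rw [h1]

end copy

/-! ### sums over tuples -/

theorem sum_cons (j n : ℕ) (f : (Fin (j + 1 + 1) → ℕ) → ℝ) :
    ∑ l ∈ Fintype.piFinset (fun _ : Fin (j + 1 + 1) => range n), f l =
      ∑ l0 ∈ range n, ∑ l' ∈ Fintype.piFinset (fun _ : Fin (j + 1) => range n),
        f (Fin.cons l0 l' : Fin (j + 1 + 1) → ℕ) := by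
  rw [← Finset.sum_product']
  refine Finset.sum_nbij' (fun l => (l 0, Fin.tail l)) (fun p => Fin.cons p.1 p.2) ?_ ?_ ?_ ?_ ?_
  · intro l hl
    rw [Fintype.mem_piFinset] at hl
    rw [Finset.mem_product, Fintype.mem_piFinset]
    exact ⟨hl 0, fun i => hl i.succ⟩
  · intro p hp
    rw [Finset.mem_product, Fintype.mem_piFinset] at hp
    rw [Fintype.mem_piFinset]
    intro i
    refine Fin.cases ?_ (fun i => ?_) i
    · exact hp.1
    · exact hp.2 i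
  · intro l _
    exact Fin.cons_self_tail l
  · intro p _
    rfl
  · intro l _
    rw [Fin.cons_self_tail l]

theorem sum_one (n : ℕ) (f : (Fin 1 → ℕ) → ℝ) :
    ∑ l ∈ Fintype.piFinset (fun _ : Fin 1 => range n), f l = ∑ l0 ∈ range n, f (fun _ => l0) := by
  refine Finset.sum_nbij' (fun l => l 0) (fun p => fun _ => p) ?_ ?_ ?_ ?_ ?_
  · intro l hl
    rw [Fintype.mem_piFinset] at hl
    exact hl 0
  · intro p hp
    rw [Fintype.mem_piFinset]
    exact fun _ => hp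
  · intro l _
    funext i
    rw [Subsingleton.elim i 0]
  · intro p _
    rfl
  · intro l _
    congr 1
    funext i
    rw [Subsingleton.elim i 0]

theorem card_pi (j n : ℕ) :
    ((Fintype.piFinset (fun _ : Fin j => range n)).card : ℝ) = (n : ℝ) ^ j := by
  rw [Fintype.card_piFinset]
  simp

/-! ### the induction -/

open Classical in
/-- the statement for `j + 1` factors -/
def CJ (j : ℕ) : Prop := ∀ (c a e : ℝ), 0 < c → c ≤ 1 → 0 < a → 0 < e → ∀ ρ C : ℕ, ∃ R0 : ℕ, ∀ R : ℕ, R0 ≤ R →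
  ∃ η : ℝ, 0 < η ∧ ∃ n0 : ℕ, ∀ n T : ℕ, n0 ≤ n → ∀ (Ω α : Type) [Fintype Ω] (μ : Ω → ℝ) (z : Ω → ℝ)
    (ζ : Ω → α) (P : α → ℝ) (κ : Fin (j + 1) → Ω → ℝ),
    (∀ ω, 0 ≤ μ ω) → mass μ = 1 → (∀ ω, 0 ≤ z ω ∧ z ω < 1) → (∀ i ω, |κ i ω| ≤ 1) →
    (∀ ω, μ ω ≠ 0 → |P (ζ ω)| * 2 ^ T ≤ 2 ^ C) →
    Hh μ (fun ω => fl n (z ω)) + Hh μ ζ + ∑ i, Hh μ (κ i) ≤
      Hh μ (fun ω => (fl n (z ω), ζ ω, fun i => κ i ω)) + η * n →
    CH μ (fun ω => fl n (z ω + P (ζ ω) * ∏ i, κ i ω)) ζ ≤ Hh μ (fun ω => fl n (z ω)) + η * n →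
    ∑ l ∈ Fintype.piFinset (fun _ : Fin (j + 1) => range n), Pw μ (fun ω =>
      ∑ i, l i + T + (j * (ρ + 2) + ρ) ≤ n ∧ 1 ≤ |P (ζ ω)| * 2 ^ T ∧
      DL μ z c R (∑ i, l i + T + (j * (ρ + 2) + ρ)) ω ∧ ∀ i, NA μ (κ i) ρ a (l i) ω) ≤ e * (n : ℝ) ^ (j + 1)

theorem st_of (h : ∀ j, CJ j) : ST_CJ := h

theorem base (hK : ST_K) : CJ 0 := by
  classical
  intro c a e hc hc1 ha he ρ C
  obtain ⟨R0, hR0⟩ := hK c a e hc hc1 ha he (C + ρ)
  refine ⟨R0, fun R hR => ?_⟩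
  obtain ⟨ηK, hηK, nK, hnK⟩ := hR0 R hR
  refine ⟨ηK, hηK, nK, fun n T hn Ω α _ μ z ζ P κ hμ hm hz hκ hP hi ha' => ?_⟩
  have h2n : ∀ m : ℕ, (0 : ℝ) < 2 ^ m := fun m => by positivity
  have e1 : ∀ ω, ∏ i : Fin (0 + 1), κ i ω = κ 0 ω := fun ω => by simp
  have key := hnK n (T + ρ) hn Ω α ℝ ℤ μ z ζ (κ 0) (fun p v => P p * v) (fun l v => fl l v) hμ hm hz
    (fun ω ω' h h' => by
      have h1 := hP ω h
      have h2 : (1 : ℝ) ≤ 2 ^ T := one_le_pow₀ (by norm_num)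
      have h3 : |P (ζ ω)| ≤ 2 ^ C := by
        have := mul_le_mul_of_nonneg_left h2 (abs_nonneg (P (ζ ω)))
        linarith
      rw [abs_mul]
      have h4 := mul_le_mul h3 (hκ 0 ω') (abs_nonneg _) (h2n C).le
      have h5 : (2 : ℝ) ^ C ≤ 2 ^ (C + ρ) := pow_le_pow_right₀ (by norm_num) (by omega)
      linarith)
    (fun l ω ω' _ _ h => fl_down (Nat.le_succ l) h)
    (fun l ω0 ω ω' h0 _ _ h => by
      have h1 := hP ω0 h0
      have h2 := floor_eq_near h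
      rw [← mul_sub, abs_mul, abs_of_pos (h2n l)] at h2
      rw [← mul_sub, abs_mul]
      have e2 : |P (ζ ω0)| * |κ 0 ω - κ 0 ω'| * 2 ^ (l + (T + ρ)) =
          (|P (ζ ω0)| * 2 ^ T) * (2 ^ l * |κ 0 ω - κ 0 ω'|) * 2 ^ ρ := by
        rw [pow_add, pow_add]
        ring
      rw [e2, pow_add]
      have h3 := mul_le_mul h1 h2 (by positivity) (h2n C).le
      have h4 := mul_le_mul_of_nonneg_right h3 (h2n ρ).le
      linarith)
    (by
      have h1 : Hh μ (fun ω => (fl n (z ω), ζ ω, fun i => κ i ω)) =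
          Hh μ (fun ω => (fl n (z ω), ζ ω, κ 0 ω)) := by
        apply ch_congr_left
        intro ω ω' _ _ _
        simp only [Prod.mk.injEq]
        constructor
        · intro e
          exact ⟨e.1, e.2.1, congrFun e.2.2 0⟩
        · intro e
          refine ⟨e.1, e.2.1, ?_⟩
          funext i
          have e0 : i = 0 := Fin.ext (by omega)
          rw [e0]
          exact e.2.2
      rw [h1] at hi
      simpa using hi)
    (by
      have h1 : (fun ω => fl n (z ω + P (ζ ω) * ∏ i : Fin (0 + 1), κ i ω)) =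
          fun ω => fl n (z ω + P (ζ ω) * κ 0 ω) := by
        funext ω
        rw [e1 ω]
      rw [h1] at ha'
      exact ha')
  have h0 : ∀ f : (Fin (0 + 1) → ℕ) → ℝ, ∑ l ∈ Fintype.piFinset (fun _ : Fin (0 + 1) => range n), f l =
      ∑ l0 ∈ range n, f (fun _ => l0) := fun f => sum_one n f
  rw [h0]
  have h1 : ∀ l0 ∈ range n, Pw μ (fun ω =>
      ∑ _i : Fin (0 + 1), l0 + T + (0 * (ρ + 2) + ρ) ≤ n ∧ 1 ≤ |P (ζ ω)| * 2 ^ T ∧
      DL μ z c R (∑ _i : Fin (0 + 1), l0 + T + (0 * (ρ + 2) + ρ)) ω ∧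
        ∀ i : Fin (0 + 1), NA μ (κ i) ρ a l0 ω) ≤
      if l0 ∈ range (n + 1 - (T + ρ)) then Pw μ (fun ω => DL μ z c R (l0 + (T + ρ)) ω ∧
      ∀ x : ℝ, a ≤ Pw (cw μ (fun ω' => fl l0 (κ 0 ω')) ω)
        (fun ω' => (1 / 2) ^ (l0 + (T + ρ)) < |P (ζ ω) * κ 0 ω' - x|)) else 0 := by
    intro l0 _
    have e2 : ∑ _i : Fin (0 + 1), l0 + T + (0 * (ρ + 2) + ρ) = l0 + (T + ρ) := by
      simp
      ring
    rw [e2]
    split_ifs with h2
    · refine Pw_mono μ hμ fun ω h3 h4 => ⟨h4.2.2.1, fun x => ?_⟩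
      have h5 := h4.2.1
      have hP0 : 0 < |P (ζ ω)| := by
        rcases (abs_nonneg (P (ζ ω))).eq_or_lt with h6 | h6
        · rw [← h6, zero_mul] at h5
          linarith
        · exact h6
      have hPne : P (ζ ω) ≠ 0 := abs_pos.1 hP0
      refine (h4.2.2.2 0 (x / P (ζ ω))).trans ?_
      refine Pw_mono _ (cw_nonneg μ _ hμ ω) fun ω' _ h7 => ?_
      have e3 : P (ζ ω) * κ 0 ω' - x = P (ζ ω) * (κ 0 ω' - x / P (ζ ω)) := by
        field_simp
      rw [e3, abs_mul]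
      have h8 : (1 / 2 : ℝ) ^ (l0 + (T + ρ)) ≤ |P (ζ ω)| * (1 / 2) ^ (l0 + ρ) := by
        have e4 : (1 / 2 : ℝ) ^ (l0 + (T + ρ)) = (1 / 2) ^ T * (1 / 2) ^ (l0 + ρ) := by
          rw [← pow_add]
          congr 1
          ring
        rw [e4]
        refine mul_le_mul_of_nonneg_right ?_ (by positivity)
        have e5 : (1 / 2 : ℝ) ^ T * 2 ^ T = 1 := by
          rw [← mul_pow]
          norm_num
        have h9 := mul_le_mul_of_nonneg_left h5 (by positivity : (0 : ℝ) ≤ (1 / 2) ^ T)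
        have e6 : (1 / 2 : ℝ) ^ T * (|P (ζ ω)| * 2 ^ T) = |P (ζ ω)| * ((1 / 2 : ℝ) ^ T * 2 ^ T) := by
          ring
        rw [e6, e5, mul_one, mul_one] at h9
        exact h9
      exact h8.trans_lt (mul_lt_mul_of_pos_left h7 hP0)
    · refine le_of_eq ?_
      unfold Pw
      refine Finset.sum_eq_zero fun ω _ => ?_
      rw [if_neg]
      intro h3
      apply h2
      rw [mem_range]
      omega
  refine (Finset.sum_le_sum h1).trans ?_
  rw [← Finset.sum_filter]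
  refine (le_trans (Finset.sum_le_sum_of_subset_of_nonneg ?_ ?_) key).trans (le_of_eq ?_)
  · intro l hl
    exact (Finset.mem_filter.1 hl).2
  · intro l _ _
    exact Pw_nonneg μ hμ _
  · simp

open Classical in
theorem step (j : ℕ) (ih : CJ j) : CJ (j + 1) := by
  intro c a e hc hc1 ha he ρ C
  obtain ⟨R0, hR0⟩ := ih c a (a * e / 4) hc hc1 ha (by positivity) ρ (C + (ρ + 2))
  refine ⟨R0, fun R hR => ?_⟩
  obtain ⟨η1, hη1, n1, hn1⟩ := hR0 R hR
  have hρ : (0 : ℝ) < (ρ : ℝ) + 2 := by positivity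
  obtain ⟨η, hη⟩ : ∃ η : ℝ, η = min (η1 / 8) (a * e / (32 * ((ρ : ℝ) + 2))) := ⟨_, rfl⟩
  have hη0 : 0 < η := by
    rw [hη]
    exact lt_min (by positivity) (by positivity)
  have hηa : η ≤ η1 / 8 := by
    rw [hη]
    exact min_le_left _ _
  have hηb : η * (32 * ((ρ : ℝ) + 2)) ≤ a * e := by
    have : η ≤ a * e / (32 * ((ρ : ℝ) + 2)) := by
      rw [hη]
      exact min_le_right _ _
    rwa [le_div_iff₀ (by positivity)] at this
  refine ⟨η, hη0, max n1 (max (⌈6 / η1⌉₊ + 1) (⌈24 * ((ρ : ℝ) + 2) / (a * e)⌉₊ + 1)),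
    fun n T hn Ω α _ μ z ζ P κ hμ hm hz hκ hP hi ha' => ?_⟩
  have hna : n1 ≤ n := (le_max_left _ _).trans hn
  have hnb : 6 ≤ η1 * n := by
    have h1 : (6 / η1 : ℝ) ≤ n := by
      refine (Nat.le_ceil _).trans ?_
      exact_mod_cast (Nat.le_succ _).trans ((le_max_left _ _).trans ((le_max_right _ _).trans hn))
    rw [div_le_iff₀ hη1] at h1
    linarith
  have hnc : 24 * ((ρ : ℝ) + 2) ≤ a * e * n := by
    have h1 : (24 * ((ρ : ℝ) + 2) / (a * e) : ℝ) ≤ n := by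
      refine (Nat.le_ceil _).trans ?_
      exact_mod_cast (Nat.le_succ _).trans ((le_max_right _ _).trans ((le_max_right _ _).trans hn))
    rw [div_le_iff₀ (by positivity)] at h1
    linarith
  have hn0 : (0 : ℝ) ≤ n := Nat.cast_nonneg n
  have h2n : ∀ m : ℕ, (0 : ℝ) < 2 ^ m := fun m => by positivity
  -- notation
  set x : Ω → ℝ := κ 0 with hx
  set κ' : Fin (j + 1) → Ω → ℝ := fun i => κ i.succ with hκ'
  set U : Ω → α × (Fin (j + 1) → ℝ) := fun ω => (ζ ω, fun i => κ' i ω) with hU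
  set q : α × (Fin (j + 1) → ℝ) → ℝ := fun u => P u.1 * ∏ i, u.2 i with hq
  have hprod : ∀ ω, z ω + P (ζ ω) * ∏ i, κ i ω = z ω + x ω * q (U ω) := by
    intro ω
    rw [Fin.prod_univ_succ]
    simp only [hx, hq, hU, hκ']
    ring
  -- the entropies
  have hsum : ∑ i, Hh μ (κ i) = Hh μ x + ∑ i, Hh μ (κ' i) := Fin.sum_univ_succ _
  have hU1 : Hh μ U ≤ Hh μ ζ + ∑ i, Hh μ (κ' i) := by
    have b1 : Hh μ U = Hh μ ζ + CH μ (fun ω => fun i => κ' i ω) (fun ω => (ζ ω, ())) :=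
      ch_chain μ ζ (fun ω => fun i => κ' i ω) (fun _ => ())
    have b2 : CH μ (fun ω => fun i => κ' i ω) (fun ω => (ζ ω, ())) ≤
        CH μ (fun ω => fun i => κ' i ω) (fun _ => ()) :=
      ch_cond μ hμ _ _ _ (fun _ _ _ _ _ => rfl)
    have b3 : CH μ (fun ω => fun i => κ' i ω) (fun _ => ()) ≤ ∑ i, CH μ (κ' i)
        (hg (fun _ (g : Unit) => g) (fun _ => ()) i) :=
      ch_pi_le μ hμ κ' (fun _ => ()) (fun _ g => g)
    have b4 : ∑ i, CH μ (κ' i) (hg (fun _ (g : Unit) => g) (fun _ => ()) i) = ∑ i, Hh μ (κ' i) := rfl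
    linarith
  have hV : Hh μ (fun ω => (fl n (z ω), ζ ω, fun i => κ i ω)) =
      Hh μ (fun ω => ((fl n (z ω), U ω), x ω)) := by
    apply ch_congr_left
    intro ω ω' _ _ _
    simp only [hU, Prod.mk.injEq]
    constructor
    · intro h
      exact ⟨⟨h.1, h.2.1, funext fun i => congrFun h.2.2 i.succ⟩, congrFun h.2.2 0⟩
    · intro h
      refine ⟨h.1.1, h.1.2.1, funext fun i => ?_⟩
      refine Fin.cases ?_ (fun i => ?_) i
      · exact h.2
      · exact congrFun h.1.2.2 i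
  have hzU : Hh μ (fun ω => (fl n (z ω), U ω)) ≤ Hh μ (fun ω => fl n (z ω)) + Hh μ U := by
    have b1 := ch_chain μ (fun ω => fl n (z ω)) U (fun _ => ())
    have b2 : CH μ U (fun ω => (fl n (z ω), ())) ≤ CH μ U (fun _ => ()) :=
      ch_cond μ hμ _ _ _ (fun _ _ _ _ _ => rfl)
    unfold Hh
    linarith
  have hxU : Hh μ (fun ω => (x ω, U ω)) ≤ Hh μ x + Hh μ U := by
    have b1 := ch_chain μ x U (fun _ => ())
    have b2 : CH μ U (fun ω => (x ω, ())) ≤ CH μ U (fun _ => ()) :=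
      ch_cond μ hμ _ _ _ (fun _ _ _ _ _ => rfl)
    unfold Hh
    linarith
  have h1x : Hh μ x ≤ CH μ x (fun ω => (fl n (z ω), U ω)) + η * n := by
    have b1 := ch_chain μ (fun ω => (fl n (z ω), U ω)) x (fun _ => ())
    have b2 : CH μ x (fun ω => ((fl n (z ω), U ω), ())) = CH μ x (fun ω => (fl n (z ω), U ω)) := by
      apply ch_congr_right
      intro ω ω' _ _
      simp only [Prod.mk.injEq, and_true]
    unfold Hh at *
    linarith
  have h1z : Hh μ (fun ω => fl n (z ω)) ≤ CH μ (fun ω => fl n (z ω)) (fun ω => (x ω, U ω)) + η * n := by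
    have b1 := ch_chain μ (fun ω => (x ω, U ω)) (fun ω => fl n (z ω)) (fun _ => ())
    have b2 : CH μ (fun ω => fl n (z ω)) (fun ω => ((x ω, U ω), ())) =
        CH μ (fun ω => fl n (z ω)) (fun ω => (x ω, U ω)) := by
      apply ch_congr_right
      intro ω ω' _ _
      simp only [Prod.mk.injEq, and_true]
    have b3 : Hh μ (fun ω => ((fl n (z ω), U ω), x ω)) = Hh μ (fun ω => ((x ω, U ω), fl n (z ω))) := by
      apply ch_congr_left
      intro ω ω' _ _ _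
      simp only [Prod.mk.injEq]
      tauto
    unfold Hh at *
    linarith
  have h1S : CH μ (fun ω => fl n (z ω + x ω * q (U ω))) U ≤ Hh μ (fun ω => fl n (z ω)) + η * n := by
    have b1 : CH μ (fun ω => fl n (z ω + x ω * q (U ω))) U ≤
        CH μ (fun ω => fl n (z ω + x ω * q (U ω))) ζ :=
      ch_cond μ hμ _ _ _ fun ω ω' _ _ h => (Prod.ext_iff.1 h).1
    have b2 : (fun ω => fl n (z ω + P (ζ ω) * ∏ i, κ i ω)) =
        fun ω => fl n (z ω + x ω * q (U ω)) := funext fun ω => by rw [hprod ω]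
    rw [b2] at ha'
    linarith
  have hIS := info_S n μ hμ hm z x U q h1x h1z h1S
  -- the information along the levels
  obtain ⟨τ, hτ⟩ : ∃ τ : ℕ → ℝ, τ = fun l =>
      (IS μ x (fun ω => (fl n (z ω), U ω)) l - IS μ x (fun ω => (fl n (z ω), U ω)) (l + (ρ + 2))) +
      (IS μ x (fun ω => (fl n (z ω + x ω * q (U ω)), U ω)) l -
        IS μ x (fun ω => (fl n (z ω + x ω * q (U ω)), U ω)) (l + (ρ + 2))) := ⟨_, rfl⟩
  have hτs : ∑ l ∈ range n, τ l ≤ ((ρ : ℝ) + 2) * (4 * (η * n) + 3) := by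
    have b1 := clo_tel (IS μ x (fun ω => (fl n (z ω), U ω))) (η * n) (IS_nonneg μ hμ x _)
      (fun l => (IS_le μ hμ x _ l).trans (by linarith)) (ρ + 2) n
    have b2 := clo_tel (IS μ x (fun ω => (fl n (z ω + x ω * q (U ω)), U ω))) (3 * (η * n) + 3)
      (IS_nonneg μ hμ x _) (fun l => (IS_le μ hμ x _ l).trans hIS) (ρ + 2) n
    rw [hτ, Finset.sum_add_distrib]
    push_cast at b1 b2
    linarith
  -- one pair
  obtain ⟨B, hB⟩ : ∃ B : ℕ → (Fin (j + 1) → ℕ) → ℝ, B = fun l0 l' => Pw (cop2 μ (kG n l0 z x U q))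
      (fun w => ∑ i, l' i + (T + (l0 + (ρ + 2))) + (j * (ρ + 2) + ρ) ≤ n ∧
        1 ≤ |P (ζ w.2) * (x w.2 - x w.1)| * 2 ^ (T + (l0 + (ρ + 2))) ∧
        DL (cop2 μ (kG n l0 z x U q)) (fun w => z w.2) c R
          (∑ i, l' i + (T + (l0 + (ρ + 2))) + (j * (ρ + 2) + ρ)) w ∧
        ∀ i, NA (cop2 μ (kG n l0 z x U q)) (fun w => κ' i w.2) ρ a (l' i) w) := ⟨_, rfl⟩
  have hone : ∀ (l0 : ℕ) (l' : Fin (j + 1) → ℕ), a * Pw μ (fun ω =>
      ∑ i, (Fin.cons l0 l' : Fin (j + 1 + 1) → ℕ) i + T + ((j + 1) * (ρ + 2) + ρ) ≤ n ∧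
      1 ≤ |P (ζ ω)| * 2 ^ T ∧
      DL μ z c R (∑ i, (Fin.cons l0 l' : Fin (j + 1 + 1) → ℕ) i + T + ((j + 1) * (ρ + 2) + ρ)) ω ∧
      ∀ i, NA μ (κ i) ρ a ((Fin.cons l0 l' : Fin (j + 1 + 1) → ℕ) i) ω) ≤
      8 / 5 * (B l0 l' + τ l0) := by
    intro l0 l'
    have hs : ∑ i, (Fin.cons l0 l' : Fin (j + 1 + 1) → ℕ) i + T + ((j + 1) * (ρ + 2) + ρ) =
        ∑ i, l' i + (T + (l0 + (ρ + 2))) + (j * (ρ + 2) + ρ) := by
      rw [Fin.sum_univ_succ]
      simp only [Fin.cons_zero, Fin.cons_succ]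
      ring
    rw [hs]
    obtain ⟨L, hL⟩ : ∃ L, L = ∑ i, l' i + (T + (l0 + (ρ + 2))) + (j * (ρ + 2) + ρ) := ⟨_, rfl⟩
    have h1 := one_step μ hμ hm (kG n l0 z x U q) x l0 ρ (fun ω ω' h => (kG_eq h).2.2)
      (fun ω => (fl n (z ω), U ω)) (fun ω => L ≤ n ∧ 1 ≤ |P (ζ ω)| * 2 ^ T ∧ DL μ z c R L ω ∧
        ∀ i, NA μ (κ i) ρ a ((Fin.cons l0 l' : Fin (j + 1 + 1) → ℕ) i) ω)
      (fun ω ω' _ _ e1 e2 => by
        rw [Prod.mk.injEq] at e1
        obtain ⟨e3, e4⟩ := e1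
        have e5 : ζ ω = ζ ω' := (Prod.ext_iff.1 e4).1
        have e6 : (fun i => κ' i ω) = fun i => κ' i ω' := (Prod.ext_iff.1 e4).2
        rw [e5]
        have e7 : ∀ i, NA μ (κ i) ρ a ((Fin.cons l0 l' : Fin (j + 1 + 1) → ℕ) i) ω ↔
            NA μ (κ i) ρ a ((Fin.cons l0 l' : Fin (j + 1 + 1) → ℕ) i) ω' := by
          intro i
          apply NA_congr
          refine Fin.cases ?_ (fun i => ?_) i
          · exact e2
          · have e8 : κ i.succ ω = κ i.succ ω' := congrFun e6 i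
            rw [e8]
        have e8 : L ≤ n → (DL μ z c R L ω ↔ DL μ z c R L ω') := fun hL' => by
          rw [clo_DL_congr μ z c hL' e3]
        constructor
        · intro h
          exact ⟨h.1, h.2.1, (e8 h.1).1 h.2.2.1, fun i => (e7 i).1 (h.2.2.2 i)⟩
        · intro h
          exact ⟨h.1, h.2.1, (e8 h.1).2 h.2.2.1, fun i => (e7 i).2 (h.2.2.2 i)⟩)
      (a := a) (fun ω _ h => h.2.2.2 0)
    rw [← hL]
    refine h1.trans (mul_le_mul_of_nonneg_left ?_ (by norm_num))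
    refine add_le_add ?_ (le_of_eq ?_)
    · rw [hB]
      refine Pw_mono _ (cp_nn μ hμ _) fun w _ h => ?_
      obtain ⟨⟨h2, h3, h4, h5⟩, h6⟩ := h
      rw [hL] at h2 h4
      refine ⟨h2, ?_, (clo_DL μ hμ _ z c R _ w).2 h4, fun i => ?_⟩
      · rw [abs_mul, pow_add]
        have h7 := mul_le_mul h3 h6 zero_le_one (by positivity)
        have e9 : |P (ζ w.2)| * |x w.2 - x w.1| * (2 ^ T * 2 ^ (l0 + (ρ + 2))) =
            |P (ζ w.2)| * 2 ^ T * (|x w.2 - x w.1| * 2 ^ (l0 + (ρ + 2))) := by ring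
        rw [e9]
        linarith
      · exact (cp_NA μ hμ _ (κ' i) ρ a (l' i) w).2 (h5 i.succ)
    · rw [hτ]
      exact congrArg₂ (· + ·) (IS_diff μ x _ l0 (ρ + 2)) (IS_diff μ x _ l0 (ρ + 2))
  -- the induction hypothesis
  have hih : ∀ l0, ∑ l' ∈ Fintype.piFinset (fun _ : Fin (j + 1) => range n), B l0 l' ≤
      a * e / 4 * (n : ℝ) ^ (j + 1) := by
    intro l0
    rw [hB]
    set G := kG n l0 z x U q with hG
    have nn := cp_nn μ hμ G
    refine hn1 n (T + (l0 + (ρ + 2))) hna (Ω × Ω) (α × ℝ × ℝ) (cop2 μ G) (fun w => z w.2)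
      (fun w => (ζ w.2, x w.2, x w.1)) (fun p => P p.1 * (p.2.1 - p.2.2)) (fun i w => κ' i w.2) nn
      ((cp_mass μ hμ _).trans hm) (fun w => hz w.2) (fun i w => hκ i.succ w.2) ?_ ?_ ?_
    · intro w h
      have h1 := hP w.2 (cp_supp μ hμ _ h).2.2
      have h2 := floor_eq_near (kG_eq (cp_supp μ hμ _ h).1).2.2.symm
      rw [← mul_sub, abs_mul, abs_of_pos (h2n l0)] at h2
      change |P (ζ w.2) * (x w.2 - x w.1)| * 2 ^ (T + (l0 + (ρ + 2))) ≤ _
      rw [abs_mul]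
      have e1 : |P (ζ w.2)| * |x w.2 - x w.1| * 2 ^ (T + (l0 + (ρ + 2))) =
          |P (ζ w.2)| * 2 ^ T * (2 ^ l0 * |x w.2 - x w.1|) * 2 ^ (ρ + 2) := by
        rw [pow_add, pow_add]
        ring
      rw [e1, pow_add (2 : ℝ) C (ρ + 2)]
      have h3 := mul_le_mul h1 h2 (by positivity) (h2n C).le
      have h4 := mul_le_mul_of_nonneg_right h3 (h2n (ρ + 2)).le
      linarith
    · have c1 : Hh (cop2 μ G) (fun w => fl n (z w.2)) = Hh μ (fun ω => fl n (z ω)) :=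
        cp_CH2 μ hμ G (fun ω => fl n (z ω)) (fun _ => ())
      have c2 : ∀ i, Hh (cop2 μ G) (fun w => κ' i w.2) = Hh μ (κ' i) := fun i =>
        cp_CH2 μ hμ G (κ' i) (fun _ => ())
      have c3 : Hh (cop2 μ G) (fun w => (ζ w.2, x w.2, x w.1)) ≤
          Hh μ ζ + Hh μ x + CH μ x (fun ω => fl l0 (x ω)) := cp_label n l0 μ hμ z x U q ζ
      have c4 : Hh μ (fun ω => ((fl n (z ω), U ω), x ω)) + CH μ x G ≤
          Hh (cop2 μ G) (fun w => (((fl n (z w.2), U w.2), x w.2), x w.1)) :=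
        cp_joint n l0 μ hμ z x U q (fun ω => ((fl n (z ω), U ω), x ω))
      have c5 : Hh (cop2 μ G) (fun w => (((fl n (z w.2), U w.2), x w.2), x w.1)) =
          Hh (cop2 μ G) (fun w => (fl n (z w.2), (ζ w.2, x w.2, x w.1), fun i => κ' i w.2)) := by
        apply ch_congr_left
        intro w w' _ _ _
        simp only [hU, Prod.mk.injEq]
        tauto
      have c6 := (IS_le μ hμ x (fun ω => (fl n (z ω + x ω * q (U ω)), U ω)) l0).trans hIS
      have c7 : CH μ x G = CH μ x (fun ω => ((fl n (z ω + x ω * q (U ω)), U ω), fl l0 (x ω))) := rfl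
      unfold IS at c6
      simp only [c2]
      have c8 : 4 * (η * n) + 3 ≤ η1 * n := by nlinarith
      linarith
    · have c1 : Hh (cop2 μ G) (fun w => fl n (z w.2)) = Hh μ (fun ω => fl n (z ω)) :=
        cp_CH2 μ hμ G (fun ω => fl n (z ω)) (fun _ => ())
      have c2 := cp_absorb n l0 μ hμ hm z x U q (fun w : Ω × Ω => (ζ w.2, x w.2, x w.1))
      have c3 : (fun w : Ω × Ω => fl n (z w.2 + P (ζ w.2) * (x w.2 - x w.1) * ∏ i, κ' i w.2)) =
          fun w => fl n (z w.2 + (x w.2 - x w.1) * q (U w.2)) := by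
        funext w
        congr 1
        simp only [hq, hU]
        ring
      change CH (cop2 μ G) (fun w : Ω × Ω => fl n (z w.2 + P (ζ w.2) * (x w.2 - x w.1) *
        ∏ i, κ' i w.2)) _ ≤ _
      rw [c3, c1]
      linarith
  -- the sum
  have hfin : a * ∑ l ∈ Fintype.piFinset (fun _ : Fin (j + 1 + 1) => range n), Pw μ (fun ω =>
      ∑ i, l i + T + ((j + 1) * (ρ + 2) + ρ) ≤ n ∧ 1 ≤ |P (ζ ω)| * 2 ^ T ∧
      DL μ z c R (∑ i, l i + T + ((j + 1) * (ρ + 2) + ρ)) ω ∧ ∀ i, NA μ (κ i) ρ a (l i) ω) ≤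
      8 / 5 * (n * (a * e / 4 * (n : ℝ) ^ (j + 1)) +
        (n : ℝ) ^ (j + 1) * (((ρ : ℝ) + 2) * (4 * (η * n) + 3))) := by
    rw [sum_cons, Finset.mul_sum]
    have h1 : ∀ l0 ∈ range n, a * ∑ l' ∈ Fintype.piFinset (fun _ : Fin (j + 1) => range n),
        Pw μ (fun ω => ∑ i, (Fin.cons l0 l' : Fin (j + 1 + 1) → ℕ) i + T +
          ((j + 1) * (ρ + 2) + ρ) ≤ n ∧ 1 ≤ |P (ζ ω)| * 2 ^ T ∧
        DL μ z c R (∑ i, (Fin.cons l0 l' : Fin (j + 1 + 1) → ℕ) i + T + ((j + 1) * (ρ + 2) + ρ)) ω ∧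
        ∀ i, NA μ (κ i) ρ a ((Fin.cons l0 l' : Fin (j + 1 + 1) → ℕ) i) ω) ≤
        8 / 5 * (a * e / 4 * (n : ℝ) ^ (j + 1) + (n : ℝ) ^ (j + 1) * τ l0) := by
      intro l0 _
      rw [Finset.mul_sum]
      refine (Finset.sum_le_sum fun l' _ => hone l0 l').trans ?_
      rw [← Finset.mul_sum, Finset.sum_add_distrib, Finset.sum_const, nsmul_eq_mul,
        card_pi (j + 1) n]
      have := hih l0
      linarith
    refine (Finset.sum_le_sum h1).trans ?_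
    rw [← Finset.mul_sum, Finset.sum_add_distrib, Finset.sum_const, card_range, nsmul_eq_mul,
      ← Finset.mul_sum]
    have h2 := mul_le_mul_of_nonneg_left hτs (pow_nonneg hn0 (j + 1))
    linarith
  have hae : 0 < a * e := by positivity
  have hfin2 : 8 / 5 * (n * (a * e / 4 * (n : ℝ) ^ (j + 1)) +
        (n : ℝ) ^ (j + 1) * (((ρ : ℝ) + 2) * (4 * (η * n) + 3))) ≤ a * (e * (n : ℝ) ^ (j + 1 + 1)) := by
    have h1 : ((ρ : ℝ) + 2) * (4 * (η * n) + 3) ≤ a * e / 4 * n := by nlinarith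
    have h2 := mul_le_mul_of_nonneg_left h1 (pow_nonneg hn0 (j + 1))
    have h3 : a * (e * (n : ℝ) ^ (j + 1 + 1)) = a * e * n * (n : ℝ) ^ (j + 1) := by
      rw [pow_succ (n : ℝ) (j + 1)]
      ring
    have h4 : 0 ≤ a * e * n * (n : ℝ) ^ (j + 1) := by positivity
    rw [h3]
    nlinarith
  exact le_of_mul_le_mul_left (hfin.trans hfin2) ha

theorem st_CJ (hK : ST_K) : ST_CJ := by
  intro j
  induction j with
  | zero => exact base hK
  | succ j ih => exact step j ih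

end Pool.Agent.Helper46.RN
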